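import Pool.Agent.X29.SF.Final

/-!
# Third-order gaps of down- and up-integers in slow Fibonacci walks

Full answer to the question: `D_3 = U_3 = {3, 4, 5, 6, 7, 8, 10, 11, 13}`.

Definitions (module `Pool.Agent.X29.SF.Defs`):

* `walk a b s` is the term `w_s` of the walk with `w_1 = a`, `w_2 = b`;
* `IsSlowIndex n s`: `s` is the greatest index at which a walk with positive starting values
  attains `n`, that is `s = s(n)`;
* `Down n`: `n ≥ 2` and some walk with positive starting values has `w_{s(n)} = n` and
  `w_{s(n)+1} = ⌊φ n⌋`;
* `Up n`: the same with `⌈φ n⌉`;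
* `gaps P l`: the set of differences of the elements of `P` with numbers `k + l` and `k` in
  increasing order.

Idea of the proof.  Let `y` be the fractional part of `φ n` (for up-integers one minus it).
Membership of `n` is a condition `y ≤ c(n)` with a slowly varying `c(n)`, bounded below by `1/4`
for large `n`.  Hence (1) membership passes from `n` to `n'` at distance at most 13 if `y`
decreases by at least `1/20`, and (2) all large `n` with `y ≤ 1/4` belong to the set.  The
rotation by `φ` then gives three further members at distance at most 13, and excludes the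
differences 9 and 12.  Numbers below 915 are treated by a kernel computation.
-/

namespace Pool.Agent.Results.MP_e2feb3_nt.ThirdOrderGaps

open Pool.Agent.X29.SF

theorem claimed_eq : {g : ℕ | g ∈ claimed} = {3, 4, 5, 6, 7, 8, 10, 11, 13} := by
  ext g
  simp [claimed]

/-- `D` and `U` are infinite and `D_3 = U_3 = {3, 4, 5, 6, 7, 8, 10, 11, 13}`. -/
theorem result :
    {n : ℕ | Down n}.Infinite ∧ {n : ℕ | Up n}.Infinite ∧
    gaps Down 3 = {3, 4, 5, 6, 7, 8, 10, 11, 13} ∧
    gaps Up 3 = {3, 4, 5, 6, 7, 8, 10, 11, 13} := by
  refine ⟨infinite_down, infinite_up, ?_, ?_⟩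
  · rw [gaps_down, claimed_eq]
  · rw [gaps_up, claimed_eq]

end Pool.Agent.Results.MP_e2feb3_nt.ThirdOrderGaps
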